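import Pool.Agent.H131R5.BZ3

set_option autoImplicit false

/-!
# Barnes multiple zeta function: growth of the continuation in half strips, uniqueness, poles
-/

namespace Pool.Agent.Y930.Bz

open Finset Filter Topology MeasureTheory Complex Set
open Pool.Agent.H131R5.BZ

/-- a bound for Mellin transforms in vertical strips -/
lemma mellin_bound {f : ℝ → ℂ} {x0 x1 : ℝ} (h0 : MellinConvergent f (x0 : ℂ))
    (h1 : MellinConvergent f (x1 : ℂ)) :
    ∃ C : ℝ, 0 ≤ C ∧ ∀ s : ℂ, x0 ≤ s.re → s.re ≤ x1 → ‖mellin f s‖ ≤ C := by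
  have e : ∀ x : ℝ, MellinConvergent f (x : ℂ) →
      IntegrableOn (fun t : ℝ => t ^ (x - 1) * ‖f t‖) (Ioi 0) := by
    intro x hx
    have h := hx.norm
    refine h.congr ?_
    filter_upwards [self_mem_ae_restrict measurableSet_Ioi] with t ht
    have ht0 : (0 : ℝ) < t := ht
    rw [norm_smul, Complex.norm_cpow_eq_rpow_re_of_pos ht0]
    simp
  have i0 := e x0 h0
  have i1 := e x1 h1
  have i2 : IntegrableOn (fun t : ℝ => t ^ (x0 - 1) * ‖f t‖ + t ^ (x1 - 1) * ‖f t‖) (Ioi 0) :=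
    i0.add i1
  refine ⟨∫ t in Ioi (0 : ℝ), (t ^ (x0 - 1) * ‖f t‖ + t ^ (x1 - 1) * ‖f t‖), ?_, ?_⟩
  · refine setIntegral_nonneg measurableSet_Ioi (fun t ht => ?_)
    have ht0 : (0 : ℝ) < t := ht
    positivity
  · intro s hs0 hs1
    unfold mellin
    refine norm_integral_le_of_norm_le i2 ?_
    filter_upwards [self_mem_ae_restrict measurableSet_Ioi] with t ht
    have ht0 : (0 : ℝ) < t := ht
    rw [norm_smul, Complex.norm_cpow_eq_rpow_re_of_pos ht0, ← add_mul]
    refine mul_le_mul_of_nonneg_right ?_ (norm_nonneg _)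
    have p0 : 0 ≤ t ^ (x0 - 1) := (Real.rpow_pos_of_pos ht0 _).le
    have p1 : 0 ≤ t ^ (x1 - 1) := (Real.rpow_pos_of_pos ht0 _).le
    have hre : (s - 1).re = s.re - 1 := by simp
    rw [hre]
    rcases le_total t 1 with h | h
    · have := Real.rpow_le_rpow_of_exponent_ge ht0 h (by linarith : x0 - 1 ≤ s.re - 1)
      linarith
    · have := Real.rpow_le_rpow_of_exponent_le h (by linarith : s.re - 1 ≤ x1 - 1)
      linarith

variable {r : ℕ} {a : ℝ} {w : Fin r → ℝ} {c : ℕ → ℂ}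

/-- The Taylor property of the coefficients. -/
def Tay (a : ℝ) (w : Fin r → ℝ) (c : ℕ → ℂ) : Prop :=
  ∀ N : ℕ, (fun t : ℝ => hh a w t - ∑ k ∈ range N, c k * (t : ℂ) ^ k)
      =O[𝓝[>] 0] fun t : ℝ => t ^ (-(-(N : ℝ)))

/-- growth in half strips: `Γ F` is bounded -/
lemma growth (ha : 0 < a) (hw : ∀ j, 0 < w j) (hc : Tay a w c) (x0 x1 : ℝ) :
    ∃ C : ℝ, 0 ≤ C ∧ ∀ s : ℂ, x0 ≤ s.re → s.re ≤ x1 → 1 ≤ s.im →
      ‖Gamma s * FF a w c s‖ ≤ C := by
  set N : ℕ := ⌈(r : ℝ) - x0⌉₊ + 1 with hNd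
  have hN1 : (r : ℝ) - N < x0 := by
    have := Nat.le_ceil ((r : ℝ) - x0)
    rw [hNd]; push_cast; linarith
  by_cases h01 : x0 ≤ x1
  swap
  · exact ⟨0, le_rfl, fun s h0 h1 _ => absurd (h0.trans h1) h01⟩
  obtain ⟨C, hC0, hC⟩ := mellin_bound (f := hN a w c N) (x0 := x0 - r) (x1 := x1 - r)
    (hN_conv ha hw hc N (by simp; linarith)) (hN_conv ha hw hc N (by simp; linarith))
  refine ⟨C + ∑ k ∈ range N, ‖c k‖, by positivity, fun s h0 h1 him => ?_⟩
  rw [FF_eq ha hw hc N (by linarith : (r : ℝ) - N < s.re)]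
  unfold FN
  have hG : Gamma s ≠ 0 := by
    apply Complex.Gamma_ne_zero
    intro m hm
    have := congrArg Complex.im hm
    simp at this
    linarith
  have hne : ∀ k : ℕ, s - r + k ≠ 0 := by
    intro k hk
    have := congrArg Complex.im hk
    simp at this
    linarith
  have e1 : Gamma s * ((Gamma s)⁻¹ * mellin (hN a w c N) (s - r) + ∑ k ∈ range N, c k * Qk r k s) =
      mellin (hN a w c N) (s - r) + ∑ k ∈ range N, c k * (1 / (s - r + k)) := by
    rw [mul_add, ← mul_assoc, mul_inv_cancel₀ hG, one_mul, Finset.mul_sum]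
    congr 1
    refine Finset.sum_congr rfl (fun k _ => ?_)
    rw [Qk_eq r k (hne k)]
    field_simp
  rw [e1]
  refine (norm_add_le _ _).trans (add_le_add (hC _ (by simp; linarith) (by simp; linarith)) ?_)
  refine (norm_sum_le _ _).trans (Finset.sum_le_sum (fun k _ => ?_))
  rw [norm_mul]
  have h2 : ‖1 / (s - r + k)‖ ≤ 1 := by
    rw [norm_div, norm_one, div_le_one (norm_pos_iff.2 (hne k))]
    have h3 := Complex.abs_im_le_norm (s - r + k)
    have h4 : (s - r + k).im = s.im := by simp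
    rw [h4, abs_of_nonneg (by linarith)] at h3
    linarith
  calc ‖c k‖ * ‖1 / (s - r + k)‖ ≤ ‖c k‖ * 1 := by gcongr
    _ = _ := mul_one _

/-- the domain of holomorphy -/
def Om (r : ℕ) : Set ℂ := {s : ℂ | ∀ k : ℕ, 1 ≤ k → k ≤ r → s ≠ (k : ℂ)}

lemma Om_eq (r : ℕ) : Om r = ((fun k : ℕ => (k : ℂ)) '' (Finset.Icc 1 r : Set ℕ))ᶜ := by
  ext s
  simp only [Om, Set.mem_setOf_eq, Set.mem_compl_iff, Set.mem_image, Finset.mem_coe,
    Finset.mem_Icc, not_exists, not_and]
  constructor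
  · intro h k hk e
    exact h k hk.1 hk.2 e.symm
  · intro h k h1 h2 e
    exact h k ⟨h1, h2⟩ e.symm

lemma Om_open (r : ℕ) : IsOpen (Om r) := by
  rw [Om_eq]
  exact (((Finset.finite_toSet _).image _).isClosed).isOpen_compl

lemma Om_preconn (r : ℕ) : IsPreconnected (Om r) := by
  rw [Om_eq]
  refine (Set.Countable.isPathConnected_compl_of_one_lt_rank ?_ ?_).isConnected.isPreconnected
  · rw [Complex.rank_real_complex]
    norm_num
  · exact ((Finset.finite_toSet _).image _).countable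

/-- uniqueness of the continuation -/
lemma eq_FF (ha : 0 < a) (hw : ∀ j, 0 < w j) (hc : Tay a w c) {Z : ℂ → ℂ}
    (hZ : ∀ s ∈ Om r, DifferentiableAt ℂ Z s)
    (hs : ∀ s : ℂ, (r : ℝ) < s.re → Z s = ∑' m : Fin r → ℕ, ((lam a w m : ℝ) : ℂ) ^ (-s)) :
    ∀ s ∈ Om r, Z s = FF a w c s := by
  have h1 : AnalyticOnNhd ℂ Z (Om r) :=
    DifferentiableOn.analyticOnNhd (fun s hs => (hZ s hs).differentiableWithinAt) (Om_open r)
  have h2 : AnalyticOnNhd ℂ (FF a w c) (Om r) :=
    DifferentiableOn.analyticOnNhd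
      (fun s hs => (FF_diff ha hw hc hs).differentiableWithinAt) (Om_open r)
  have hmem : ((r : ℂ) + 1) ∈ Om r := by
    intro k h1 h2 e
    have := congrArg Complex.re e
    simp at this
    have h3 : (k : ℝ) ≤ r := by exact_mod_cast h2
    linarith
  have h3 := h1.eqOn_of_preconnected_of_eventuallyEq h2 (Om_preconn r) hmem (by
    have h4 : ∀ᶠ z in 𝓝 ((r : ℂ) + 1), (r : ℝ) < z.re :=
      (continuous_re.tendsto _).eventually (lt_mem_nhds (by simp))
    filter_upwards [h4] with z hz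
    rw [hs z hz, (FF_series ha hw hc hz).tsum_eq])
  exact fun s hs => h3 hs

lemma Qk_pole (r k j : ℕ) (h1 : 1 ≤ j) (h2 : j ≤ r) :
    ∃ l : ℂ, Tendsto (fun s : ℂ => (s - j) * Qk r k s) (𝓝[≠] (j : ℂ)) (𝓝 l) := by
  by_cases hk : k = r - j
  · refine ⟨(Gamma (j : ℂ))⁻¹, ?_⟩
    have h3 : Tendsto (fun s : ℂ => (Gamma s)⁻¹) (𝓝[≠] (j : ℂ)) (𝓝 (Gamma (j : ℂ))⁻¹) :=
      (Complex.differentiable_one_div_Gamma.continuous.tendsto _).mono_left nhdsWithin_le_nhds
    refine h3.congr' ?_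
    filter_upwards [self_mem_nhdsWithin] with s hs
    have hsj : s - j ≠ 0 := sub_ne_zero.2 hs
    have e : s - r + k = s - j := by
      rw [hk, Nat.cast_sub h2]; ring
    rw [Qk_eq r k (by rw [e]; exact hsj), e]
    field_simp
  · refine ⟨((j : ℂ) - j) * Qk r k j, ?_⟩
    have h3 : DifferentiableAt ℂ (Qk r k) (j : ℂ) := by
      unfold Qk
      split_ifs with h
      · refine DifferentiableAt.mul Complex.differentiable_one_div_Gamma.differentiableAt ?_
        refine DifferentiableAt.div (by fun_prop) (by fun_prop) ?_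
        intro h0
        have h4 : ((j + k : ℕ) : ℂ) = (r : ℕ) := by push_cast; linear_combination h0
        have h5 : j + k = r := by exact_mod_cast h4
        omega
      · exact (En_diff (k - r)).differentiableAt
    have h4 : ContinuousAt (fun s : ℂ => (s - j) * Qk r k s) (j : ℂ) :=
      ContinuousAt.mul (by fun_prop) h3.continuousAt
    exact h4.tendsto.mono_left nhdsWithin_le_nhds

lemma FF_pole (ha : 0 < a) (hw : ∀ j, 0 < w j) (hc : Tay a w c) (j : ℕ) (h1 : 1 ≤ j)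
    (h2 : j ≤ r) :
    ∃ l : ℂ, Tendsto (fun s : ℂ => (s - j) * FF a w c s) (𝓝[≠] (j : ℂ)) (𝓝 l) := by
  choose l hl using fun k => Qk_pole r k j h1 h2
  set N : ℕ := r + 1 with hNd
  have hj : (r : ℝ) - N < (j : ℂ).re := by
    rw [hNd]; push_cast
    have : (1 : ℝ) ≤ j := by exact_mod_cast h1
    simp only [natCast_re]
    linarith
  refine ⟨((j : ℂ) - j) * ((Gamma (j : ℂ))⁻¹ * mellin (hN a w c N) ((j : ℂ) - r)) +
    ∑ k ∈ range N, c k * l k, ?_⟩
  have e1 : (fun s : ℂ => (s - j) * FF a w c s) =ᶠ[𝓝[≠] (j : ℂ)]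
      fun s : ℂ => (s - j) * ((Gamma s)⁻¹ * mellin (hN a w c N) (s - r)) +
        ∑ k ∈ range N, c k * ((s - j) * Qk r k s) := by
    have h3 : ∀ᶠ z in 𝓝[≠] (j : ℂ), (r : ℝ) - N < z.re :=
      ((continuous_re.tendsto _).eventually (lt_mem_nhds hj)).filter_mono nhdsWithin_le_nhds
    filter_upwards [h3] with s hs
    rw [FF_eq ha hw hc N hs]
    unfold FN
    rw [mul_add, Finset.mul_sum]
    congr 1
    exact Finset.sum_congr rfl (fun k _ => by ring)
  refine Tendsto.congr' e1.symm ?_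
  refine Tendsto.add ?_ ?_
  · have h4 : ContinuousAt (fun s : ℂ => (s - j) * ((Gamma s)⁻¹ *
        mellin (hN a w c N) (s - r))) (j : ℂ) := by
      refine ContinuousAt.mul (by fun_prop) (ContinuousAt.mul
        Complex.differentiable_one_div_Gamma.continuous.continuousAt ?_)
      have h5 : DifferentiableAt ℂ (mellin (hN a w c N) ∘ fun s : ℂ => s - r) (j : ℂ) :=
        DifferentiableAt.comp (g := mellin (hN a w c N)) (f := fun s : ℂ => s - r) (j : ℂ)
          (hN_diff ha hw hc N (by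
            simp only [sub_re, natCast_re] at hj ⊢
            linarith)) (by fun_prop)
      exact h5.continuousAt
    exact h4.tendsto.mono_left nhdsWithin_le_nhds
  · exact tendsto_finsetSum _ (fun k _ => (hl k).const_mul (c k))

end Pool.Agent.Y930.Bz
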