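import Pool.Agent.H9R3.BZ.H
import Pool.Agent.Y930.Bz.A

set_option autoImplicit false

/-!
# Barnes multiple zeta function: Mellin inversion on the half-plane
-/

namespace Pool.Agent.Y930.Bz

open Finset Filter Topology MeasureTheory Complex Set
open Pool.Agent.H131R5.BZ

lemma rpow_le_exp {A z : ℝ} (hA : 0 < A) (hz : 0 ≤ z) : z ^ A ≤ A ^ A * Real.exp z := by
  have h1 : z / A ≤ Real.exp (z / A) := by
    have := Real.add_one_le_exp (z / A)
    linarith
  have h2 : (z / A) ^ A ≤ Real.exp (z / A) ^ A :=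
    Real.rpow_le_rpow (by positivity) h1 hA.le
  have h3 : Real.exp (z / A) ^ A = Real.exp z := by
    rw [← Real.exp_mul]
    congr 1
    field_simp
  rw [h3, Real.div_rpow hz hA.le] at h2
  rw [div_le_iff₀ (Real.rpow_pos_of_pos hA _)] at h2
  linarith

/-- absorbing a power into an exponential -/
lemma rpow_mul_exp_le' {A δ t : ℝ} (hA : 0 < A) (hδ : 0 < δ) (ht : 0 ≤ t) :
    t ^ A * Real.exp (-δ * t) ≤ (2 * A) ^ A * δ ^ (-A) * Real.exp (-(δ / 2) * t) := by
  have h1 := rpow_le_exp hA (by positivity : 0 ≤ δ / 2 * t)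
  have h2 : t ^ A = (2 / δ) ^ A * (δ / 2 * t) ^ A := by
    rw [← Real.mul_rpow (by positivity) (by positivity)]
    congr 1
    field_simp
  have h3 : (2 / δ) ^ A * A ^ A = (2 * A) ^ A * δ ^ (-A) := by
    rw [Real.div_rpow (by norm_num) hδ.le, Real.mul_rpow (by norm_num) hA.le, Real.rpow_neg hδ.le]
    field_simp
  have h4 : Real.exp (-δ * t) * Real.exp (δ / 2 * t) = Real.exp (-(δ / 2) * t) := by
    rw [← Real.exp_add]; congr 1; ring
  calc t ^ A * Real.exp (-δ * t) = (2 / δ) ^ A * (δ / 2 * t) ^ A * Real.exp (-δ * t) := by rw [h2]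
    _ ≤ (2 / δ) ^ A * (A ^ A * Real.exp (δ / 2 * t)) * Real.exp (-δ * t) := by gcongr
    _ = ((2 / δ) ^ A * A ^ A) * (Real.exp (-δ * t) * Real.exp (δ / 2 * t)) := by ring
    _ = _ := by rw [h3, h4]

lemma exp_abs_int {δ : ℝ} (hδ : 0 < δ) : Integrable (fun t : ℝ => Real.exp (-δ * |t|)) := by
  refine Integrable.mono' (integrable_inv_one_add_sq.const_mul (1 + 2 / δ ^ 2))
    (by fun_prop) (ae_of_all _ fun t => ?_)
  rw [Real.norm_eq_abs, abs_of_pos (Real.exp_pos _), ← div_eq_mul_inv,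
    le_div_iff₀ (by positivity)]
  have h1 := Real.quadratic_le_exp_of_nonneg (x := δ * |t|) (by positivity)
  have h2 : 1 + t ^ 2 ≤ (1 + 2 / δ ^ 2) * Real.exp (δ * |t|) := by
    have h3 : t ^ 2 = 2 / δ ^ 2 * ((δ * |t|) ^ 2 / 2) := by
      rw [mul_pow, sq_abs]; field_simp
    have h4 : (δ * |t|) ^ 2 / 2 ≤ Real.exp (δ * |t|) := by
      have : 0 ≤ δ * |t| := by positivity
      linarith
    have h5 : 1 ≤ Real.exp (δ * |t|) := Real.one_le_exp (by positivity)
    have h6 : 2 / δ ^ 2 * ((δ * |t|) ^ 2 / 2) ≤ 2 / δ ^ 2 * Real.exp (δ * |t|) := by gcongr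
    linarith
  calc Real.exp (-δ * |t|) * (1 + t ^ 2) ≤
      Real.exp (-δ * |t|) * ((1 + 2 / δ ^ 2) * Real.exp (δ * |t|)) := by gcongr
    _ = (1 + 2 / δ ^ 2) * (Real.exp (-δ * |t|) * Real.exp (δ * |t|)) := by ring
    _ = _ := by rw [← Real.exp_add]; simp

lemma line_re (σ t : ℝ) : ((σ : ℂ) + t * I).re = σ := by simp

lemma line_im (σ t : ℝ) : ((σ : ℂ) + t * I).im = t := by simp

lemma Gamma_line_cont {c : ℝ} (hc : 0 < c) : Continuous fun t : ℝ => Gamma ((c : ℂ) + t * I) := by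
  refine continuous_iff_continuousAt.2 fun t => ?_
  have h1 : DifferentiableAt ℂ Gamma ((c : ℂ) + t * I) := by
    refine Complex.differentiableAt_Gamma _ (fun m hm => ?_)
    have := congrArg Complex.re hm
    simp at this
    have h2 : (0 : ℝ) ≤ m := Nat.cast_nonneg m
    linarith
  exact ContinuousAt.comp (g := Gamma) (f := fun t : ℝ => (c : ℂ) + t * I) h1.continuousAt
    (by fun_prop)

/-- Γ on a vertical line -/
lemma Gamma_line {c : ℝ} (hc : 1 / 2 ≤ c) : ∃ C : ℝ, 0 < C ∧ ∀ t : ℝ,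
    ‖Gamma ((c : ℂ) + t * I)‖ ≤ C * ((1 + |t|) ^ (c - 1 / 2) * Real.exp (-(Real.pi / 2) * |t|)) := by
  obtain ⟨C0, hC0⟩ := (isCompact_Icc (a := (-1 : ℝ)) (b := 1)).exists_bound_of_continuousOn
    (Gamma_line_cont (c := c) (by linarith)).continuousOn
  have hC0' : 0 ≤ C0 := (norm_nonneg _).trans (hC0 0 (by norm_num))
  set C1 : ℝ := 4 * (1 + c) ^ (c - 1 / 2) with hC1
  have hC1p : 0 < C1 := by
    have : 0 < 1 + c := by linarith
    positivity
  refine ⟨C0 * Real.exp (Real.pi / 2) + C1, by positivity, fun t => ?_⟩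
  have hP : 0 ≤ (1 + |t|) ^ (c - 1 / 2) * Real.exp (-(Real.pi / 2) * |t|) := by positivity
  rcases le_or_gt |t| 1 with ht | ht
  · have h1 := hC0 t (abs_le.1 ht)
    have h2 : 1 ≤ (1 + |t|) ^ (c - 1 / 2) :=
      Real.one_le_rpow (by have := abs_nonneg t; linarith) (by linarith)
    have h3 : 1 ≤ Real.exp (Real.pi / 2) * Real.exp (-(Real.pi / 2) * |t|) := by
      rw [← Real.exp_add]
      apply Real.one_le_exp
      have := Real.pi_pos
      nlinarith
    calc ‖Gamma ((c : ℂ) + t * I)‖ ≤ C0 * 1 * 1 := by linarith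
      _ ≤ C0 * (1 + |t|) ^ (c - 1 / 2) *
          (Real.exp (Real.pi / 2) * Real.exp (-(Real.pi / 2) * |t|)) := by gcongr
      _ = (C0 * Real.exp (Real.pi / 2)) *
          ((1 + |t|) ^ (c - 1 / 2) * Real.exp (-(Real.pi / 2) * |t|)) := by ring
      _ ≤ _ := by gcongr; linarith
  · have h1 := Pool.Agent.H9R3.BZ.Gamma_upper hc ht.le
    have h2 : ‖Gamma ((c : ℂ) + t * I)‖ = ‖Gamma ((c : ℂ) + (|t| : ℝ) * I)‖ := by
      rcases le_total 0 t with h | h
      · rw [abs_of_nonneg h]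
      · rw [abs_of_nonpos h, ← Complex.norm_conj, ← Complex.Gamma_conj]
        congr 2
        simp
    rw [h2]
    refine h1.trans ?_
    have h3 : |t| ^ (c - 1 / 2) ≤ (1 + |t|) ^ (c - 1 / 2) :=
      Real.rpow_le_rpow (abs_nonneg _) (by linarith) (by linarith)
    calc 4 * (1 + c) ^ (c - 1 / 2) * |t| ^ (c - 1 / 2) * Real.exp (-(Real.pi / 2) * |t|)
        ≤ C1 * (1 + |t|) ^ (c - 1 / 2) * Real.exp (-(Real.pi / 2) * |t|) := by
          rw [hC1]; gcongr
      _ = C1 * ((1 + |t|) ^ (c - 1 / 2) * Real.exp (-(Real.pi / 2) * |t|)) := by ring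
      _ ≤ _ := by
          gcongr
          have : 0 ≤ C0 * Real.exp (Real.pi / 2) := by positivity
          linarith

lemma Gamma_int {c : ℝ} (hc : 1 / 2 ≤ c) {β : ℝ} (hβ : β < Real.pi / 2) :
    Integrable (fun t : ℝ => Real.exp (β * |t|) * ‖Gamma ((c : ℂ) + t * I)‖) := by
  obtain ⟨C, hC, h⟩ := Gamma_line hc
  set δ := Real.pi / 2 - β with hδ
  have hδ0 : 0 < δ := by linarith
  set A := c - 1 / 2 + 1 with hA
  have hA0 : 0 < A := by linarith
  refine Integrable.mono' ((exp_abs_int (half_pos hδ0)).const_mul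
    (C * Real.exp δ * ((2 * A) ^ A * δ ^ (-A)))) ?_ (ae_of_all _ fun t => ?_)
  · exact ((by fun_prop : Continuous fun t : ℝ => Real.exp (β * |t|)).mul
      (Gamma_line_cont (by linarith)).norm).aestronglyMeasurable
  · have h1 := rpow_mul_exp_le' hA0 hδ0 (by positivity : 0 ≤ 1 + |t|)
    have h2 : (1 + |t|) ^ (c - 1 / 2) ≤ (1 + |t|) ^ A :=
      Real.rpow_le_rpow_of_exponent_le (by have := abs_nonneg t; linarith) (by linarith)
    rw [norm_mul, norm_norm, Real.norm_eq_abs, abs_of_pos (Real.exp_pos _)]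
    have e1 : Real.exp (β * |t|) * Real.exp (-(Real.pi / 2) * |t|) =
        Real.exp δ * Real.exp (-δ * (1 + |t|)) := by
      rw [← Real.exp_add, ← Real.exp_add]; congr 1; rw [hδ]; ring
    have e2 : Real.exp (-(δ / 2) * (1 + |t|)) ≤ Real.exp (-(δ / 2) * |t|) := by
      apply Real.exp_le_exp.2; linarith
    calc Real.exp (β * |t|) * ‖Gamma ((c : ℂ) + t * I)‖
        ≤ Real.exp (β * |t|) * (C * ((1 + |t|) ^ A * Real.exp (-(Real.pi / 2) * |t|))) := by
          gcongr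
          exact (h t).trans (by gcongr)
      _ = C * (1 + |t|) ^ A * (Real.exp (β * |t|) * Real.exp (-(Real.pi / 2) * |t|)) := by ring
      _ = C * Real.exp δ * ((1 + |t|) ^ A * Real.exp (-δ * (1 + |t|))) := by rw [e1]; ring
      _ ≤ C * Real.exp δ * ((2 * A) ^ A * δ ^ (-A) * Real.exp (-(δ / 2) * |t|)) :=
          mul_le_mul_of_nonneg_left (h1.trans (by gcongr)) (by positivity)
      _ = _ := by ring

variable {r : ℕ} {a : ℝ} {w : Fin r → ℝ} {c : ℕ → ℂ}

/-- the generating function -/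
noncomputable def KK (a : ℝ) (w : Fin r → ℝ) (z : ℂ) : ℂ :=
  cexp (-(a : ℂ) * z) * ∏ j, (1 - cexp (-(w j : ℂ) * z))⁻¹

lemma KK_real (a : ℝ) (w : Fin r → ℝ) (t : ℝ) :
    KK a w t = ((Real.exp (-a * t) * ∏ j, (1 - Real.exp (-(w j) * t))⁻¹ : ℝ) : ℂ) := by
  unfold KK
  push_cast
  rfl

lemma one_sub_ne {b : ℝ} (hb : 0 < b) {z : ℂ} (hz : 0 < z.re) : 1 - cexp (-(b : ℂ) * z) ≠ 0 := by
  intro h
  have h1 : cexp (-(b : ℂ) * z) = 1 := (sub_eq_zero.1 h).symm
  have h2 := congrArg norm h1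
  rw [Complex.norm_exp, norm_one] at h2
  have h3 : (-(b : ℂ) * z).re = -(b * z.re) := by simp
  rw [h3, Real.exp_eq_one_iff] at h2
  have := mul_pos hb hz
  linarith

lemma KK_diff (hw : ∀ j, 0 < w j) {z : ℂ} (hz : 0 < z.re) : DifferentiableAt ℂ (KK a w) z := by
  unfold KK
  refine DifferentiableAt.mul (by fun_prop) ?_
  refine DifferentiableAt.fun_finsetProd (fun j _ => ?_)
  exact DifferentiableAt.inv (by fun_prop) (one_sub_ne (hw j) hz)

/-- the Mellin transform of the generating function -/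
lemma mellin_KK (ha : 0 < a) (hw : ∀ j, 0 < w j) (hc : Tay a w c) {s : ℂ} (hs : (r : ℝ) < s.re) :
    MellinConvergent (fun t : ℝ => KK a w t) s ∧
      mellin (fun t : ℝ => KK a w t) s = Gamma s * FF a w c s := by
  have hr0 : (0 : ℝ) ≤ r := Nat.cast_nonneg r
  have hs0 : 0 < s.re := by linarith
  have hG0 : Gamma s ≠ 0 := Complex.Gamma_ne_zero_of_re_pos hs0
  have e1 : ∀ t ∈ Ioi (0 : ℝ), KK a w t = (t : ℂ) ^ (-(r : ℂ)) • hh a w t := by
    intro t ht
    have ht0 : (0 : ℝ) < t := ht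
    rw [KK_real, hh_real a w ht0, smul_eq_mul, Complex.cpow_neg, Complex.cpow_natCast]
    push_cast
    have : (t : ℂ) ^ r ≠ 0 := pow_ne_zero _ (by exact_mod_cast ht0.ne')
    field_simp
  have h0 : MellinConvergent (hN a w c 0) (s - r) :=
    hN_conv ha hw hc 0 (by simp; linarith)
  rw [hN_zero] at h0
  have h1 : MellinConvergent (fun t : ℝ => (t : ℂ) ^ (-(r : ℂ)) • hh a w t) s := by
    rw [MellinConvergent.cpow_smul]
    rwa [← sub_eq_add_neg]
  constructor
  · refine IntegrableOn.congr_fun h1 (fun t ht => ?_) measurableSet_Ioi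
    simp only []
    rw [e1 t ht]
  · have h3 : mellin (fun t : ℝ => (t : ℂ) ^ (-(r : ℂ)) • hh a w t) s =
        mellin (fun t : ℝ => hh a w t) (s + (-(r : ℂ))) := mellin_cpow_smul _ _ _
    have h4 : mellin (fun t : ℝ => KK a w t) s =
        mellin (fun t : ℝ => (t : ℂ) ^ (-(r : ℂ)) • hh a w t) s := by
      unfold mellin
      refine setIntegral_congr_fun measurableSet_Ioi (fun t ht => ?_)
      simp only []
      rw [e1 t ht]
    rw [h4, h3, ← sub_eq_add_neg, FF_eq ha hw hc 0 (by simpa using hs)]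
    unfold FN
    rw [hN_zero]
    simp only [Finset.range_zero, Finset.sum_empty, add_zero]
    field_simp

/-- the bound on the line of absolute convergence -/
lemma FF_line (ha : 0 < a) (hw : ∀ j, 0 < w j) (hc : Tay a w c) {x : ℝ} (hx : (r : ℝ) < x)
    (t : ℝ) : ‖FF a w c ((x : ℂ) + t * I)‖ ≤ ∑' m : Fin r → ℕ, (lam a w m) ^ (-x) := by
  have h0 := FF_series ha hw hc (s := (x : ℂ) + t * I) (by simpa using hx)
  rw [← h0.tsum_eq]
  have h2 : ∀ m : Fin r → ℕ, ‖((lam a w m : ℝ) : ℂ) ^ (-((x : ℂ) + (t : ℂ) * I))‖ =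
      (lam a w m) ^ (-x) := by
    intro m
    rw [Complex.norm_cpow_eq_rpow_re_of_pos (lam_pos ha hw m)]
    simp
  have h3 := norm_tsum_le_tsum_norm
    (f := fun m : Fin r → ℕ => ((lam a w m : ℝ) : ℂ) ^ (-((x : ℂ) + (t : ℂ) * I)))
    (by simpa only [h2] using summable_lam ha hw hx)
  simpa only [h2] using h3

/-- `Γ F` on the line of absolute convergence -/
noncomputable def Mc (a : ℝ) (w : Fin r → ℝ) (c : ℕ → ℂ) (x t : ℝ) : ℂ :=
  Gamma ((x : ℂ) + t * I) * FF a w c ((x : ℂ) + t * I)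

lemma mem_Om_of_re {s : ℂ} (hs : (r : ℝ) < s.re) : s ∈ Om r := by
  intro k _ h2 e
  rw [e] at hs
  simp only [natCast_re] at hs
  have h3 : (k : ℝ) ≤ r := by exact_mod_cast h2
  linarith

lemma Mc_cont (ha : 0 < a) (hw : ∀ j, 0 < w j) (hc : Tay a w c) {x : ℝ} (hx : (r : ℝ) < x) :
    Continuous (Mc a w c x) := by
  have hr0 : (0 : ℝ) ≤ r := Nat.cast_nonneg r
  refine (Gamma_line_cont (by linarith)).mul (continuous_iff_continuousAt.2 fun t => ?_)
  have h1 : DifferentiableAt ℂ (FF a w c) ((x : ℂ) + t * I) :=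
    FF_diff ha hw hc (mem_Om_of_re (by simpa using hx))
  exact ContinuousAt.comp (g := FF a w c) (f := fun t : ℝ => (x : ℂ) + t * I) h1.continuousAt
    (by fun_prop)

lemma Mc_bound (ha : 0 < a) (hw : ∀ j, 0 < w j) (hc : Tay a w c) {x : ℝ} (hx : (r : ℝ) < x)
    (t : ℝ) : ‖Mc a w c x t‖ ≤
      (∑' m : Fin r → ℕ, (lam a w m) ^ (-x)) * ‖Gamma ((x : ℂ) + t * I)‖ := by
  unfold Mc
  rw [norm_mul, mul_comm]
  exact mul_le_mul_of_nonneg_right (FF_line ha hw hc hx t) (norm_nonneg _)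

lemma Mc_int (ha : 0 < a) (hw : ∀ j, 0 < w j) (hc : Tay a w c) {x : ℝ} (hx : (r : ℝ) < x)
    (hx1 : 1 / 2 ≤ x) {β : ℝ} (hβ : β < Real.pi / 2) :
    Integrable (fun t : ℝ => Real.exp (β * |t|) * ‖Mc a w c x t‖) := by
  refine Integrable.mono' ((Gamma_int hx1 hβ).const_mul
    (∑' m : Fin r → ℕ, (lam a w m) ^ (-x))) ?_ (ae_of_all _ fun t => ?_)
  · exact ((by fun_prop : Continuous fun t : ℝ => Real.exp (β * |t|)).mul
      (Mc_cont ha hw hc hx).norm).aestronglyMeasurable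
  · rw [norm_mul, norm_norm, Real.norm_eq_abs, abs_of_pos (Real.exp_pos _)]
    calc Real.exp (β * |t|) * ‖Mc a w c x t‖ ≤ Real.exp (β * |t|) *
        ((∑' m : Fin r → ℕ, (lam a w m) ^ (-x)) * ‖Gamma ((x : ℂ) + t * I)‖) := by
          gcongr
          exact Mc_bound ha hw hc hx t
      _ = _ := by ring

/-- Mellin inversion on the half-plane. -/
theorem inversion (ha : 0 < a) (hw : ∀ j, 0 < w j) (hc : Tay a w c) {x : ℝ} (hx : (r : ℝ) < x)
    (hx1 : 1 / 2 ≤ x) {z : ℂ} (hz : 0 < z.re) :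
    (1 / (2 * Real.pi) : ℂ) * ∫ t : ℝ, z ^ (-((x : ℂ) + t * I)) * Mc a w c x t = KK a w z := by
  have hU : IsOpen {z : ℂ | 0 < z.re} := isOpen_lt continuous_const Complex.continuous_re
  have hpre : IsPreconnected {z : ℂ | 0 < z.re} := (convex_halfSpace_re_gt 0).isPreconnected
  have hMc := Mc_cont ha hw hc hx
  have h1 : AnalyticOnNhd ℂ (fun z : ℂ => (1 / (2 * Real.pi) : ℂ) *
      ∫ t : ℝ, z ^ (-((x : ℂ) + t * I)) * Mc a w c x t) {z : ℂ | 0 < z.re} := by
    refine DifferentiableOn.analyticOnNhd (fun z hz => ?_) hU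
    exact ((Pool.Agent.H9R3.BZ.inv_diff hMc (by linarith) (fun δ hδ _ =>
      Mc_int ha hw hc hx hx1 (by linarith)) hz).const_mul _).differentiableWithinAt
  have h3 : AnalyticOnNhd ℂ (KK a w) {z : ℂ | 0 < z.re} :=
    DifferentiableOn.analyticOnNhd (fun z hz => (KK_diff hw hz).differentiableWithinAt) hU
  refine h1.eqOn_of_preconnected_of_frequently_eq h3 hpre (z₀ := 1) (by simp) ?_ hz
  have ht : Tendsto (fun x : ℝ => (x : ℂ)) (𝓝[≠] 1) (𝓝[≠] (1 : ℂ)) := by
    refine tendsto_nhdsWithin_iff.2 ⟨?_, ?_⟩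
    · exact (Complex.continuous_ofReal.tendsto' (1:ℝ) (1:ℂ) (by simp)).mono_left nhdsWithin_le_nhds
    · filter_upwards [self_mem_nhdsWithin] with x hx
      simp only [mem_compl_iff, mem_singleton_iff] at hx ⊢
      exact_mod_cast hx
  refine ht.frequently (Eventually.frequently ?_)
  have hpos : ∀ᶠ u : ℝ in 𝓝[≠] 1, 0 < u := nhdsWithin_le_nhds (lt_mem_nhds one_pos)
  filter_upwards [hpos] with u hu
  have hM : ∀ t : ℝ, mellin (fun t : ℝ => KK a w t) ((x : ℂ) + t * I) = Mc a w c x t := fun t =>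
    (mellin_KK ha hw hc (by simpa using hx)).2
  have hconv : MellinConvergent (fun t : ℝ => KK a w t) (x : ℂ) :=
    (mellin_KK ha hw hc (by simpa using hx)).1
  have hvi : VerticalIntegrable (mellin (fun t : ℝ => KK a w t)) x := by
    have h4 := Mc_int ha hw hc hx hx1 (β := 0) (by linarith [Real.pi_pos])
    refine Integrable.mono' h4 ?_ (ae_of_all _ fun t => ?_)
    · refine hMc.aestronglyMeasurable.congr (ae_of_all _ fun t => ?_)
      exact (hM t).symm
    · show ‖mellin (fun t : ℝ => KK a w t) ((x : ℂ) + t * I)‖ ≤ _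
      rw [hM t]
      simp
  have hcont : ContinuousAt (fun t : ℝ => KK a w t) u := by
    have h5 : DifferentiableAt ℂ (KK a w) (u : ℂ) := KK_diff hw (by simpa using hu)
    exact ContinuousAt.comp (g := KK a w) (f := fun t : ℝ => (t : ℂ)) h5.continuousAt
      (by fun_prop)
  have key := mellinInv_mellin_eq x (fun t : ℝ => KK a w t) hu hconv hvi hcont
  rw [← key]
  unfold mellinInv
  simp only [smul_eq_mul, Complex.real_smul, hM]
  push_cast
  rfl

end Pool.Agent.Y930.Bz
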