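import Pool.Agent.Y930.Bz.D

set_option autoImplicit false

/-!
# Barnes multiple zeta function: from a moment bound to a bound for the generating function
-/

namespace Pool.Agent.Y930.Bz

open Finset Filter Topology MeasureTheory Complex Set Asymptotics
open Pool.Agent.H131R5.BZ

theorem laplace' {g : ℝ → ℝ} (hg : Continuous g) {C B δ R : ℝ} (hC : 0 ≤ C)
    (hB : 0 < B) (hδ : 0 < δ) (hR : 1 ≤ R)
    (hΦ : ∀ T : ℝ, 1 ≤ T → ∫ t in (1 : ℝ)..T, g t ≤ C * T ^ B) :
    ∫ t in (1 : ℝ)..R, Real.exp (-δ * t) * g t ≤ 3 * C * ((2 * B) ^ B * δ ^ (-B)) := by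
  set Φ : ℝ → ℝ := fun T => ∫ t in (1 : ℝ)..T, g t with hΦdef
  have hd : ∀ x : ℝ, HasDerivAt Φ (g x) x := fun x =>
    intervalIntegral.integral_hasDerivAt_right (hg.intervalIntegrable _ _)
      (hg.stronglyMeasurableAtFilter _ _) hg.continuousAt
  have hcΦ : Continuous Φ := continuous_iff_continuousAt.2 fun x => (hd x).continuousAt
  have he : ∀ x : ℝ, HasDerivAt (fun t => Real.exp (-δ * t)) (-δ * Real.exp (-δ * x)) x := by
    intro x
    have h := ((hasDerivAt_id x).const_mul (-δ)).exp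
    simp only [id_eq, mul_one] at h
    rwa [mul_comm] at h
  have hparts := intervalIntegral.integral_mul_deriv_eq_deriv_mul (a := 1) (b := R)
    (u := fun t => Real.exp (-δ * t)) (v := Φ) (u' := fun x => -δ * Real.exp (-δ * x)) (v' := g)
    (fun x _ => he x) (fun x _ => hd x) (by apply Continuous.intervalIntegrable; fun_prop)
    (hg.intervalIntegrable _ _)
  have hΦ1 : Φ 1 = 0 := by simp [hΦdef]
  rw [hparts, hΦ1, mul_zero, sub_zero]
  set D : ℝ := (2 * B) ^ B * δ ^ (-B) with hDdef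
  have hD : 0 < D := by positivity
  have hb : ∀ t : ℝ, 1 ≤ t → Real.exp (-δ * t) * Φ t ≤ C * D * Real.exp (-(δ / 2) * t) := by
    intro t ht
    have h1 := rpow_mul_exp_le' hB hδ (by linarith : 0 ≤ t)
    have h2 := hΦ t ht
    calc Real.exp (-δ * t) * Φ t ≤ Real.exp (-δ * t) * (C * t ^ B) := by
          exact mul_le_mul_of_nonneg_left h2 (Real.exp_pos _).le
      _ = C * (t ^ B * Real.exp (-δ * t)) := by ring
      _ ≤ C * (D * Real.exp (-(δ / 2) * t)) := by gcongr
      _ = _ := by ring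
  have h1 : Real.exp (-δ * R) * Φ R ≤ C * D := by
    refine (hb R hR).trans ?_
    have : Real.exp (-(δ / 2) * R) ≤ 1 := Real.exp_le_one_iff.2 (by nlinarith)
    have h8 : 0 ≤ C * D := by positivity
    nlinarith
  have h2 : -∫ x in (1 : ℝ)..R, -δ * Real.exp (-δ * x) * Φ x ≤ 2 * (C * D) := by
    rw [← intervalIntegral.integral_neg]
    have h3 : ∫ x in (1 : ℝ)..R, -(-δ * Real.exp (-δ * x) * Φ x) ≤
        ∫ x in (1 : ℝ)..R, δ * (C * D) * Real.exp (-(δ / 2) * x) := by
      apply intervalIntegral.integral_mono_on hR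
      · apply Continuous.intervalIntegrable; fun_prop
      · apply Continuous.intervalIntegrable; fun_prop
      · intro x hx
        have h4 := mul_le_mul_of_nonneg_left (hb x hx.1) hδ.le
        calc -(-δ * Real.exp (-δ * x) * Φ x) = δ * (Real.exp (-δ * x) * Φ x) := by ring
          _ ≤ _ := h4
          _ = _ := by ring
    refine h3.trans ?_
    rw [intervalIntegral.integral_const_mul]
    have h5 : ∫ x in (1 : ℝ)..R, Real.exp (-(δ / 2) * x) ≤ 2 / δ := by
      have hF : ∀ x ∈ uIcc (1 : ℝ) R, HasDerivAt (fun t => -(2 / δ) * Real.exp (-(δ / 2) * t))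
          (Real.exp (-(δ / 2) * x)) x := by
        intro x _
        have h := (((hasDerivAt_id x).const_mul (-(δ / 2))).exp).const_mul (-(2 / δ))
        simp only [id_eq, mul_one] at h
        refine h.congr_deriv ?_
        field_simp
      rw [intervalIntegral.integral_eq_sub_of_hasDerivAt hF
        (by apply Continuous.intervalIntegrable; fun_prop)]
      have h6 : Real.exp (-(δ / 2) * 1) ≤ 1 := Real.exp_le_one_iff.2 (by linarith)
      have h7 := Real.exp_pos (-(δ / 2) * R)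
      have h8 : 0 < 2 / δ := by positivity
      nlinarith
    calc δ * (C * D) * ∫ x in (1 : ℝ)..R, Real.exp (-(δ / 2) * x)
        ≤ δ * (C * D) * (2 / δ) := by gcongr
      _ = _ := by field_simp
  linarith

lemma pow_split {g M : ℝ} (hg : 0 ≤ g) (hM : 0 < M) {n : ℕ} (hn : 1 ≤ n) :
    g ≤ M + g ^ n / M ^ (n - 1) := by
  rcases le_total g M with h | h
  · have : 0 ≤ g ^ n / M ^ (n - 1) := by positivity
    linarith
  · have h1 : g ≤ g ^ n / M ^ (n - 1) := by
      rw [le_div_iff₀ (by positivity)]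
      calc g * M ^ (n - 1) ≤ g * g ^ (n - 1) := by gcongr
        _ = g ^ n := by rw [← pow_succ']; congr 1; omega
    linarith

/-- from a moment bound to a bound for the mean value -/
lemma mean_of_moment {g : ℝ → ℝ} (hg : Continuous g) (h0 : ∀ t, 0 ≤ g t) {n : ℕ} (hn : 1 ≤ n)
    {η : ℝ} (hη : 0 ≤ η)
    (hO : (fun T : ℝ => ∫ t in (1 : ℝ)..T, g t ^ n) =O[atTop] fun T : ℝ => T ^ (1 + η)) :
    ∃ C : ℝ, 0 ≤ C ∧ ∀ T : ℝ, 1 ≤ T → ∫ t in (1 : ℝ)..T, g t ≤ C * T ^ (1 + η / n) := by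
  obtain ⟨C1, hC1⟩ := hO.bound
  obtain ⟨T0, hT0⟩ := eventually_atTop.1 hC1
  set T1 := max T0 1 with hT1
  have hgn : Continuous fun t => g t ^ n := hg.pow n
  have hmono : ∀ S T : ℝ, 1 ≤ S → S ≤ T → ∫ t in (1 : ℝ)..S, g t ^ n ≤ ∫ t in (1 : ℝ)..T, g t ^ n := by
    intro S T h1 h2
    rw [← intervalIntegral.integral_add_adjacent_intervals (hgn.intervalIntegrable 1 S)
      (hgn.intervalIntegrable S T)]
    have := intervalIntegral.integral_nonneg (μ := volume) h2 (f := fun t => g t ^ n)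
      (fun t _ => by have := h0 t; positivity)
    linarith
  have hI0 : ∀ T : ℝ, 1 ≤ T → 0 ≤ ∫ t in (1 : ℝ)..T, g t ^ n := fun T hT =>
    intervalIntegral.integral_nonneg hT (fun t _ => by have := h0 t; positivity)
  set C2 : ℝ := |C1| + ∫ t in (1 : ℝ)..T1, g t ^ n with hC2
  have hC20 : 0 ≤ C2 := by
    have := hI0 T1 (le_max_right _ _)
    positivity
  have hall : ∀ T : ℝ, 1 ≤ T → ∫ t in (1 : ℝ)..T, g t ^ n ≤ C2 * T ^ (1 + η) := by
    intro T hT
    have hTp : 1 ≤ T ^ (1 + η) := Real.one_le_rpow hT (by linarith)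
    have hJ := hI0 T1 (le_max_right _ _)
    rcases le_total T T1 with h | h
    · calc ∫ t in (1 : ℝ)..T, g t ^ n ≤ ∫ t in (1 : ℝ)..T1, g t ^ n := hmono T T1 hT h
        _ ≤ C2 * 1 := by rw [hC2, mul_one]; have := abs_nonneg C1; linarith
        _ ≤ C2 * T ^ (1 + η) := by gcongr
    · have h1 := hT0 T ((le_max_left _ _).trans h)
      rw [Real.norm_eq_abs, Real.norm_eq_abs, abs_of_nonneg (hI0 T hT),
        abs_of_nonneg (by linarith : 0 ≤ T ^ (1 + η))] at h1
      calc ∫ t in (1 : ℝ)..T, g t ^ n ≤ C1 * T ^ (1 + η) := h1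
        _ ≤ C2 * T ^ (1 + η) := by
            gcongr
            rw [hC2]
            have := le_abs_self C1
            linarith
  refine ⟨1 + C2, by linarith, fun T hT => ?_⟩
  have hT0' : 0 < T := by linarith
  have hn0 : (0 : ℝ) < n := by exact_mod_cast hn
  set M : ℝ := T ^ (η / n) with hM
  have hM0 : 0 < M := Real.rpow_pos_of_pos hT0' _
  have h1 : ∫ t in (1 : ℝ)..T, g t ≤ ∫ t in (1 : ℝ)..T, (M + g t ^ n / M ^ (n - 1)) := by
    apply intervalIntegral.integral_mono_on hT (hg.intervalIntegrable _ _)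
    · apply Continuous.intervalIntegrable; fun_prop
    · exact fun t _ => pow_split (h0 t) hM0 hn
  rw [intervalIntegral.integral_add (by simp)
    ((hgn.div_const _).intervalIntegrable _ _), intervalIntegral.integral_const,
    intervalIntegral.integral_div, smul_eq_mul] at h1
  have h2 : (T - 1) * M ≤ T ^ (1 + η / n) := by
    rw [Real.rpow_add hT0', Real.rpow_one]
    have : (T - 1) * M ≤ T * M := by gcongr; linarith
    exact this
  have h3 : (∫ t in (1 : ℝ)..T, g t ^ n) / M ^ (n - 1) ≤ C2 * T ^ (1 + η / n) := by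
    rw [div_le_iff₀ (by positivity)]
    refine (hall T hT).trans (le_of_eq ?_)
    rw [mul_assoc]
    congr 1
    rw [hM, ← Real.rpow_natCast, ← Real.rpow_mul hT0'.le, ← Real.rpow_add hT0',
      Nat.cast_sub hn]
    congr 1
    push_cast
    field_simp
    ring
  calc _ ≤ (T - 1) * M + (∫ t in (1 : ℝ)..T, g t ^ n) / M ^ (n - 1) := h1
    _ ≤ T ^ (1 + η / n) + C2 * T ^ (1 + η / n) := add_le_add h2 h3
    _ = _ := by ring

variable {r : ℕ} {a : ℝ} {w : Fin r → ℝ} {c : ℕ → ℂ}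

/-- `|F|` on a vertical line, made constant below `1` -/
noncomputable def gl (a : ℝ) (w : Fin r → ℝ) (c : ℕ → ℂ) (σ t : ℝ) : ℝ :=
  ‖FF a w c ((σ : ℂ) + ((max t 1 : ℝ) : ℂ) * I)‖

lemma gl_cont (ha : 0 < a) (hw : ∀ j, 0 < w j) (hc : Tay a w c) (σ : ℝ) :
    Continuous (gl a w c σ) := by
  unfold gl
  refine Continuous.norm (continuous_iff_continuousAt.2 fun t => ?_)
  have h1 : DifferentiableAt ℂ (FF a w c) ((σ : ℂ) + ((max t 1 : ℝ) : ℂ) * I) :=
    FF_diff ha hw hc (mem_Om_of_im (by simp))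
  exact ContinuousAt.comp (g := FF a w c) (f := fun t : ℝ => (σ : ℂ) + ((max t 1 : ℝ) : ℂ) * I)
    h1.continuousAt (by fun_prop)

lemma gl_eq (σ : ℝ) {t : ℝ} (ht : 1 ≤ t) : gl a w c σ t = ‖FF a w c ((σ : ℂ) + (t : ℂ) * I)‖ := by
  unfold gl
  rw [max_eq_left ht]

/-- The generating function is small near the imaginary axis if a moment is small. -/
theorem upper_of_moment (ha : 0 < a) (hw : ∀ j, 0 < w j) (hc : Tay a w c) {σ : ℝ}
    (hσ : 1 / 2 < σ) (hσr : σ ≤ (r : ℝ) + 1) {n : ℕ} (hn : 1 ≤ n) {η : ℝ} (hη : 0 ≤ η)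
    (hO : (fun T : ℝ => ∫ t in (1 : ℝ)..T, ‖FF a w c ((σ : ℂ) + (t : ℂ) * I)‖ ^ n)
      =O[atTop] fun T : ℝ => T ^ (1 + η)) :
    ∃ E : ℝ, 0 < E ∧ ∀ z : ℂ, 1 ≤ ‖z‖ → 0 < z.re → 0 ≤ arg z →
      ‖KK a w z‖ ≤ E * (1 + (Real.pi / 2 - arg z) ^ (-(σ + 1 / 2 + η / n))) := by
  have hO' : (fun T : ℝ => ∫ t in (1 : ℝ)..T, gl a w c σ t ^ n) =O[atTop]
      fun T : ℝ => T ^ (1 + η) := by
    refine hO.congr' ?_ EventuallyEq.rfl
    filter_upwards [eventually_ge_atTop (1 : ℝ)] with T hT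
    refine intervalIntegral.integral_congr fun t ht => ?_
    rw [Set.uIcc_of_le hT] at ht
    show ‖FF a w c ((σ : ℂ) + (t : ℂ) * I)‖ ^ n = gl a w c σ t ^ n
    rw [gl_eq σ ht.1]
  obtain ⟨C, hC0, hC⟩ := mean_of_moment (gl_cont ha hw hc σ) (fun t => norm_nonneg _) hn hη hO'
  obtain ⟨E, hE0, hE⟩ := upper ha hw hc (by linarith : 0 ≤ σ) hσr
  set A : ℝ := σ - 1 / 2 with hA
  have hA0 : 0 < A := by linarith
  set B : ℝ := 1 + η / n with hB
  have hB0 : 0 < B := by positivity
  set C3 : ℝ := 4 * (1 + σ) ^ A * ((2 * A) ^ A) * (3 * C * ((2 * B) ^ B * 2 ^ B)) with hC3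
  have hC30 : 0 ≤ C3 := by
    have : 0 < 1 + σ := by linarith
    positivity
  refine ⟨E * (1 + C3), by positivity, fun z hz1 hzr hzi => ?_⟩
  set θ : ℝ := Real.pi / 2 - arg z with hθ
  have hθ0 : 0 < θ := by
    have := (abs_lt.1 (arg_lt hzr)).2
    linarith
  set e : ℝ := σ + 1 / 2 + η / n with he
  have hθe : 0 < θ ^ (-e) := Real.rpow_pos_of_pos hθ0 _
  have hAB : A + B = e := by rw [hA, hB, he]; ring
  have key := hE z hz1 hzr hzi (C3 * θ ^ (-e)) (by positivity) (by
    intro T hT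
    have hgc := gl_cont ha hw hc σ
    have h1 : ∫ y in (1 : ℝ)..T, ‖Gamma ((σ : ℂ) + y * I) * FF a w c ((σ : ℂ) + y * I)‖ *
        Real.exp (arg z * y) ≤ ∫ y in (1 : ℝ)..T,
          (4 * (1 + σ) ^ A * ((2 * A) ^ A * θ ^ (-A))) * (Real.exp (-(θ / 2) * y) * gl a w c σ y) := by
      apply intervalIntegral.integral_mono_on hT
      · apply ContinuousOn.intervalIntegrable
        rw [Set.uIcc_of_le hT]
        refine ContinuousOn.mul (ContinuousOn.norm ?_) (by fun_prop)
        intro y hy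
        have hy1 : 1 ≤ ((σ : ℂ) + y * I).im := by simpa using hy.1
        have g1 : DifferentiableAt ℂ Gamma ((σ : ℂ) + y * I) := by
          refine Complex.differentiableAt_Gamma _ (fun m hm => ?_)
          have := congrArg Complex.im hm
          simp at this
          linarith [hy.1]
        have g2 : DifferentiableAt ℂ (FF a w c) ((σ : ℂ) + y * I) :=
          FF_diff ha hw hc (mem_Om_of_im hy1)
        have g3 : ContinuousAt (fun s : ℂ => Gamma s * FF a w c s) ((σ : ℂ) + y * I) :=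
          (g1.mul g2).continuousAt
        exact (ContinuousAt.comp (g := fun s : ℂ => Gamma s * FF a w c s)
          (f := fun y : ℝ => (σ : ℂ) + y * I) g3 (by fun_prop)).continuousWithinAt
      · apply Continuous.intervalIntegrable
        exact continuous_const.mul ((by fun_prop : Continuous fun y : ℝ =>
          Real.exp (-(θ / 2) * y)).mul hgc)
      · intro y hy
        have hy1 := hy.1
        have h2 := Pool.Agent.H9R3.BZ.Gamma_upper hσ.le hy1
        have h3 := rpow_mul_exp_le' hA0 hθ0 (by linarith : 0 ≤ y)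
        have h4 : Real.exp (-(Real.pi / 2) * y) * Real.exp (arg z * y) = Real.exp (-θ * y) := by
          rw [← Real.exp_add]; congr 1; rw [hθ]; ring
        have hσ1 : 0 < 1 + σ := by linarith
        rw [norm_mul, gl_eq σ hy1]
        set G := ‖FF a w c ((σ : ℂ) + (y : ℂ) * I)‖ with hG
        have hG0 : 0 ≤ G := norm_nonneg _
        calc ‖Gamma ((σ : ℂ) + y * I)‖ * G * Real.exp (arg z * y)
            ≤ (4 * (1 + σ) ^ A * y ^ A * Real.exp (-(Real.pi / 2) * y)) * G *
              Real.exp (arg z * y) := by gcongr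
          _ = 4 * (1 + σ) ^ A * G * (y ^ A *
              (Real.exp (-(Real.pi / 2) * y) * Real.exp (arg z * y))) := by ring
          _ = 4 * (1 + σ) ^ A * G * (y ^ A * Real.exp (-θ * y)) := by rw [h4]
          _ ≤ 4 * (1 + σ) ^ A * G * ((2 * A) ^ A * θ ^ (-A) * Real.exp (-(θ / 2) * y)) := by
              gcongr
          _ = _ := by ring
    refine h1.trans ?_
    rw [intervalIntegral.integral_const_mul]
    have h5 := laplace' hgc hC0 hB0 (half_pos hθ0) hT hC
    have hσ1 : 0 < 1 + σ := by linarith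
    have h6 : 0 < 4 * (1 + σ) ^ A * ((2 * A) ^ A * θ ^ (-A)) := by positivity
    refine (mul_le_mul_of_nonneg_left h5 h6.le).trans (le_of_eq ?_)
    have h7 : (θ / 2) ^ (-B) = θ ^ (-B) * 2 ^ B := by
      rw [Real.div_rpow hθ0.le (by norm_num), Real.rpow_neg (by norm_num : (0:ℝ) ≤ 2), div_inv_eq_mul]
    have h8 : θ ^ (-e) = θ ^ (-A) * θ ^ (-B) := by
      rw [← Real.rpow_add hθ0, ← hAB]; congr 1; ring
    rw [h7, h8, hC3]
    ring)
  refine key.trans ?_
  have h9 : 1 + C3 * θ ^ (-e) ≤ (1 + C3) * (1 + θ ^ (-e)) := by nlinarith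
  calc E * (1 + C3 * θ ^ (-e)) ≤ E * ((1 + C3) * (1 + θ ^ (-e))) := by gcongr
    _ = _ := by ring

end Pool.Agent.Y930.Bz
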