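import Pool.Agent.Y930.Bz.E

set_option autoImplicit false

/-!
# Barnes multiple zeta function: large moments for simultaneously very well approximable weights
-/

namespace Pool.Agent.Y930.Bz

open Finset Filter Topology MeasureTheory Complex Set Asymptotics
open Pool.Agent.H131R5.BZ

variable {r : ℕ} {a : ℝ} {w : Fin r → ℝ} {c : ℕ → ℂ}

/-- The numbers `w_j` have simultaneous rational approximations with a common denominator `D`, the
errors being smaller than every fixed power of `1 / D`. -/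
def SimL (w : Fin r → ℝ) : Prop :=
  ∀ n : ℕ, ∃ D : ℕ, n ≤ D ∧ ∀ j, ∃ N : ℤ, |(D : ℝ) * w j - N| ≤ 1 / (D : ℝ) ^ n

lemma factor_le {b y : ℝ} (hb : 0 < b) (hy : 0 < y) {D : ℕ} {N : ℤ}
    (hN : |(D : ℝ) * b - N| ≤ y) (hs : (b + 2 * Real.pi) * y ≤ 1) :
    ‖1 - cexp (-(b : ℂ) * ((y : ℂ) + (2 * Real.pi * D : ℝ) * I))‖ ≤
      2 * (b + 2 * Real.pi) * y := by
  set u : ℂ := -((b * y : ℝ) : ℂ) - ((2 * Real.pi * (D * b - N) : ℝ) : ℂ) * I with hu
  have e1 : cexp (-(b : ℂ) * ((y : ℂ) + (2 * Real.pi * D : ℝ) * I)) = cexp u := by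
    have e2 : -(b : ℂ) * ((y : ℂ) + (2 * Real.pi * D : ℝ) * I) =
        u - (N : ℤ) * (2 * Real.pi * I) := by
      rw [hu]; push_cast; ring
    rw [e2, Complex.exp_sub, Complex.exp_int_mul_two_pi_mul_I, div_one]
  have hun : ‖u‖ ≤ (b + 2 * Real.pi) * y := by
    rw [hu]
    refine (norm_sub_le _ _).trans ?_
    rw [norm_neg, norm_mul, Complex.norm_I, mul_one, Complex.norm_real, Complex.norm_real,
      Real.norm_eq_abs, Real.norm_eq_abs, abs_of_pos (mul_pos hb hy), abs_mul,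
      abs_of_pos (by positivity : 0 < 2 * Real.pi)]
    have : 2 * Real.pi * |(D : ℝ) * b - N| ≤ 2 * Real.pi * y := by gcongr
    linarith
  rw [e1, ← norm_neg, neg_sub]
  calc ‖cexp u - 1‖ ≤ 2 * ‖u‖ := Complex.norm_exp_sub_one_le (hun.trans hs)
    _ ≤ 2 * ((b + 2 * Real.pi) * y) := by gcongr
    _ = _ := by ring

lemma KK_lower (ha : 0 < a) (hw : ∀ j, 0 < w j) {y : ℝ} (hy : 0 < y) (hy1 : y ≤ 1) {D : ℕ}
    (hN : ∀ j, ∃ N : ℤ, |(D : ℝ) * w j - N| ≤ y) (hs : ∀ j, (w j + 2 * Real.pi) * y ≤ 1) :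
    Real.exp (-a) * (∏ j, (2 * (w j + 2 * Real.pi))⁻¹) * (y⁻¹) ^ r ≤
      ‖KK a w ((y : ℂ) + (2 * Real.pi * D : ℝ) * I)‖ := by
  unfold KK
  rw [norm_mul, norm_prod, Complex.norm_exp]
  have hre : (-(a : ℂ) * ((y : ℂ) + (2 * Real.pi * D : ℝ) * I)).re = -(a * y) := by simp
  rw [hre, mul_assoc]
  have h1 : Real.exp (-a) ≤ Real.exp (-(a * y)) := Real.exp_le_exp.2 (by nlinarith)
  have h2 : (∏ j, (2 * (w j + 2 * Real.pi))⁻¹) * (y⁻¹) ^ r =
      ∏ j, (2 * (w j + 2 * Real.pi) * y)⁻¹ := by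
    simp only [mul_inv, Finset.prod_mul_distrib, Finset.prod_const, Finset.card_univ,
      Fintype.card_fin]
  have hwp : ∀ j, 0 < w j + 2 * Real.pi := fun j => by
    have := hw j; have := Real.pi_pos; linarith
  rw [h2]
  have h3 : ∏ j, (2 * (w j + 2 * Real.pi) * y)⁻¹ ≤
      ∏ j, ‖(1 - cexp (-(w j : ℂ) * ((y : ℂ) + (2 * Real.pi * D : ℝ) * I)))⁻¹‖ := by
    refine Finset.prod_le_prod (fun j _ => by have := hwp j; positivity) (fun j _ => ?_)
    obtain ⟨N, hN⟩ := hN j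
    rw [norm_inv]
    refine inv_anti₀ ?_ (factor_le (hw j) hy hN (hs j))
    exact norm_pos_iff.2 (one_sub_ne (hw j) (by simpa using hy))
  have h4 : 0 ≤ ∏ j, (2 * (w j + 2 * Real.pi) * y)⁻¹ :=
    Finset.prod_nonneg (fun j _ => by have := hwp j; positivity)
  exact mul_le_mul h1 h3 h4 (Real.exp_pos _).le

lemma theta_lower {y : ℝ} (hy : 0 < y) (hy1 : y ≤ 1) {D : ℕ} (hD : 1 ≤ D) :
    1 ≤ ‖(y : ℂ) + (2 * Real.pi * D : ℝ) * I‖ ∧ 0 ≤ arg ((y : ℂ) + (2 * Real.pi * D : ℝ) * I) ∧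
      y / (8 * D) ≤ Real.pi / 2 - arg ((y : ℂ) + (2 * Real.pi * D : ℝ) * I) := by
  set z : ℂ := (y : ℂ) + (2 * Real.pi * D : ℝ) * I with hz
  have hre : z.re = y := by simp [hz]
  have him : z.im = 2 * Real.pi * D := by simp [hz]
  have hD1 : (1 : ℝ) ≤ D := by exact_mod_cast hD
  have hpi := Real.pi_gt_three
  have hpi2 := Real.pi_lt_d2
  have h1 : 1 ≤ ‖z‖ := by
    have := (le_abs_self _).trans (Complex.abs_im_le_norm z)
    rw [him] at this
    nlinarith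
  have h2 : ‖z‖ ≤ 8 * D := by
    have := Complex.norm_le_abs_re_add_abs_im z
    rw [hre, him, abs_of_pos hy, abs_of_pos (by positivity)] at this
    nlinarith
  have h3 : 0 ≤ arg z := by
    rw [Complex.arg_nonneg_iff, him]; positivity
  have hz0 : z ≠ 0 := by
    intro h; rw [h, norm_zero] at h1; linarith
  have h4 : arg z ≤ Real.pi / 2 :=
    (le_abs_self _).trans (Complex.abs_arg_le_pi_div_two_iff.2 (by rw [hre]; exact hy.le))
  refine ⟨h1, h3, ?_⟩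
  have h5 : Real.sin (Real.pi / 2 - arg z) = y / ‖z‖ := by
    rw [Real.sin_pi_div_two_sub, Complex.cos_arg hz0, hre]
  have h6 : y / ‖z‖ ≤ Real.pi / 2 - arg z := by
    rw [← h5]
    exact Real.sin_le (by linarith)
  refine le_trans ?_ h6
  exact div_le_div_of_nonneg_left hy.le (by linarith) h2

/-- The generating function is large near the imaginary axis. -/
theorem contra (ha : 0 < a) (hw : ∀ j, 0 < w j) (hL : SimL w) {E e : ℝ} (hE : 0 < E)
    (he : 0 < e) (her : e < r)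
    (h : ∀ z : ℂ, 1 ≤ ‖z‖ → 0 < z.re → 0 ≤ arg z →
      ‖KK a w z‖ ≤ E * (1 + (Real.pi / 2 - arg z) ^ (-e))) : False := by
  set cL : ℝ := Real.exp (-a) * ∏ j, (2 * (w j + 2 * Real.pi))⁻¹ with hcL
  have hwp : ∀ j, 0 < w j + 2 * Real.pi := fun j => by
    have := hw j; have := Real.pi_pos; linarith
  have hcL0 : 0 < cL := by
    have : 0 < ∏ j, (2 * (w j + 2 * Real.pi))⁻¹ :=
      Finset.prod_pos (fun j _ => by have := hwp j; positivity)
    positivity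
  set M : ℕ := ⌈(e + 1) / (r - e)⌉₊ + 1 with hM
  have hre : 0 < (r : ℝ) - e := by linarith
  have hM1 : e + 1 ≤ M * (r - e) := by
    have h1 := Nat.le_ceil ((e + 1) / (r - e))
    rw [div_le_iff₀ hre] at h1
    rw [hM]; push_cast
    nlinarith
  set K1 : ℝ := E * (1 + 8 ^ e) with hK1
  set n : ℕ := M + ⌈K1 / cL⌉₊ + ⌈∑ j, (w j + 2 * Real.pi)⌉₊ + 1 with hn
  obtain ⟨D, hnD, hD⟩ := hL n
  have hDn : (n : ℝ) ≤ D := by exact_mod_cast hnD
  have hn1 : (1 : ℝ) ≤ n := by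
    have : 1 ≤ n := by omega
    exact_mod_cast this
  have hD1 : (1 : ℝ) ≤ D := hn1.trans hDn
  have hD1' : 1 ≤ D := by exact_mod_cast hD1
  have hD0 : (0 : ℝ) < D := by linarith
  have hDK : K1 / cL < D := by
    have h1 := Nat.le_ceil (K1 / cL)
    have h2 : (n : ℝ) = M + ⌈K1 / cL⌉₊ + ⌈∑ j, (w j + 2 * Real.pi)⌉₊ + 1 := by
      rw [hn]; push_cast; ring
    linarith [Nat.cast_nonneg (α := ℝ) M, Nat.cast_nonneg (α := ℝ) ⌈∑ j, (w j + 2 * Real.pi)⌉₊]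
  have hDw : ∀ j, w j + 2 * Real.pi ≤ D := by
    intro j
    have h1 := Nat.le_ceil (∑ j, (w j + 2 * Real.pi))
    have h2 : (n : ℝ) = M + ⌈K1 / cL⌉₊ + ⌈∑ j, (w j + 2 * Real.pi)⌉₊ + 1 := by
      rw [hn]; push_cast; ring
    have h3 : w j + 2 * Real.pi ≤ ∑ j, (w j + 2 * Real.pi) :=
      Finset.single_le_sum (f := fun j => w j + 2 * Real.pi) (fun i _ => (hwp i).le)
        (Finset.mem_univ j)
    linarith [Nat.cast_nonneg (α := ℝ) M, Nat.cast_nonneg (α := ℝ) ⌈K1 / cL⌉₊]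
  set y : ℝ := ((D : ℝ) ^ M)⁻¹ with hy
  have hDM : 0 < (D : ℝ) ^ M := by positivity
  have hy0 : 0 < y := by positivity
  have hDM1 : (D : ℝ) ≤ (D : ℝ) ^ M := by
    calc (D : ℝ) = (D : ℝ) ^ 1 := (pow_one _).symm
      _ ≤ (D : ℝ) ^ M := pow_le_pow_right₀ hD1 (by omega)
  have hy1 : y ≤ 1 := inv_le_one_of_one_le₀ (hD1.trans hDM1)
  have hN : ∀ j, ∃ N : ℤ, |(D : ℝ) * w j - N| ≤ y := by
    intro j
    obtain ⟨N, hN⟩ := hD j
    refine ⟨N, hN.trans ?_⟩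
    rw [hy, ← one_div]
    apply one_div_le_one_div_of_le hDM
    exact pow_le_pow_right₀ hD1 (by omega)
  have hs : ∀ j, (w j + 2 * Real.pi) * y ≤ 1 := by
    intro j
    rw [hy, ← div_eq_mul_inv, div_le_one hDM]
    exact (hDw j).trans hDM1
  have hlow := KK_lower ha hw hy0 hy1 hN hs
  obtain ⟨t1, t2, t3⟩ := theta_lower hy0 hy1 hD1'
  have hup := h ((y : ℂ) + (2 * Real.pi * D : ℝ) * I) t1 (by simpa using hy0) t2
  have hth : (Real.pi / 2 - arg ((y : ℂ) + (2 * Real.pi * D : ℝ) * I)) ^ (-e) ≤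
      8 ^ e * (D : ℝ) ^ ((M + 1) * e) := by
    have h1 := Real.rpow_le_rpow_of_nonpos (by positivity : 0 < y / (8 * D)) t3
      (by linarith : -e ≤ 0)
    refine h1.trans (le_of_eq ?_)
    have h2 : y / (8 * D) = (8 * (D : ℝ) ^ (M + 1))⁻¹ := by
      rw [hy, pow_succ (D : ℝ) M]; field_simp
    rw [h2, Real.rpow_neg (by positivity), Real.inv_rpow (by positivity), inv_inv,
      Real.mul_rpow (by norm_num) (by positivity), ← Real.rpow_natCast, ← Real.rpow_mul hD0.le]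
    push_cast
    rfl
  have hDe : 1 ≤ (D : ℝ) ^ ((M + 1) * e) := Real.one_le_rpow hD1 (by positivity)
  have h8 : 0 < (8 : ℝ) ^ e := by positivity
  have hfin : cL * ((D : ℝ) ^ ((M + 1) * e) * D) ≤ K1 * (D : ℝ) ^ ((M + 1) * e) := by
    calc cL * ((D : ℝ) ^ ((M + 1) * e) * D) ≤ cL * (y⁻¹) ^ r := by
          have h1 : (y⁻¹) ^ r = (D : ℝ) ^ ((M : ℝ) * r) := by
            rw [hy, inv_inv, ← pow_mul, ← Real.rpow_natCast]
            push_cast
            rfl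
          have h2 : (D : ℝ) ^ ((M + 1) * e) * D = (D : ℝ) ^ ((M + 1) * e + 1) := by
            rw [Real.rpow_add hD0, Real.rpow_one]
          rw [h1, h2]
          refine mul_le_mul_of_nonneg_left ?_ hcL0.le
          apply Real.rpow_le_rpow_of_exponent_le hD1
          nlinarith
      _ ≤ ‖KK a w ((y : ℂ) + (2 * Real.pi * D : ℝ) * I)‖ := hlow
      _ ≤ E * (1 + 8 ^ e * (D : ℝ) ^ ((M + 1) * e)) :=
          hup.trans (by gcongr)
      _ ≤ E * ((1 + 8 ^ e) * (D : ℝ) ^ ((M + 1) * e)) := by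
          refine mul_le_mul_of_nonneg_left ?_ hE.le
          nlinarith
      _ = K1 * (D : ℝ) ^ ((M + 1) * e) := by rw [hK1]; ring
  have h9 : cL * D ≤ K1 := by
    have hp : 0 < (D : ℝ) ^ ((M + 1) * e) := by linarith
    have : cL * D * (D : ℝ) ^ ((M + 1) * e) ≤ K1 * (D : ℝ) ^ ((M + 1) * e) := by linarith
    exact le_of_mul_le_mul_right this hp
  rw [div_lt_iff₀ hcL0] at hDK
  linarith

/-- the moments are large -/
theorem not_moment (ha : 0 < a) (hw : ∀ j, 0 < w j) (hL : SimL w) {Z : ℂ → ℂ}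
    (hZ : ∀ s ∈ Om r, DifferentiableAt ℂ Z s)
    (hs : ∀ s : ℂ, (r : ℝ) < s.re → Z s = ∑' m : Fin r → ℕ, ((lam a w m : ℝ) : ℂ) ^ (-s))
    {n : ℕ} (hn : 1 ≤ n) {σ η : ℝ} (hσ : 1 / 2 < σ) (hσr : σ < (r : ℝ) - 1 / 2)
    (hη : η < n * ((r : ℝ) - 1 / 2 - σ)) :
    ¬ (fun T : ℝ => ∫ t in (1 : ℝ)..T, ‖Z ((σ : ℂ) + (t : ℂ) * I)‖ ^ n)
      =O[atTop] fun T : ℝ => T ^ (1 + η) := by
  intro hO
  obtain ⟨c, hc⟩ := exists_taylor a hw
  have hn0 : (0 : ℝ) < n := by exact_mod_cast hn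
  have hη' : max η 0 < n * ((r : ℝ) - 1 / 2 - σ) :=
    max_lt hη (mul_pos hn0 (by linarith))
  have hO' : (fun T : ℝ => ∫ t in (1 : ℝ)..T, ‖FF a w c ((σ : ℂ) + (t : ℂ) * I)‖ ^ n)
      =O[atTop] fun T : ℝ => T ^ (1 + max η 0) := by
    have h1 : (fun T : ℝ => ∫ t in (1 : ℝ)..T, ‖FF a w c ((σ : ℂ) + (t : ℂ) * I)‖ ^ n) =ᶠ[atTop]
        fun T : ℝ => ∫ t in (1 : ℝ)..T, ‖Z ((σ : ℂ) + (t : ℂ) * I)‖ ^ n := by
      filter_upwards [eventually_ge_atTop (1 : ℝ)] with T hT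
      refine intervalIntegral.integral_congr fun t ht => ?_
      rw [Set.uIcc_of_le hT] at ht
      show ‖FF a w c ((σ : ℂ) + (t : ℂ) * I)‖ ^ n = ‖Z ((σ : ℂ) + (t : ℂ) * I)‖ ^ n
      rw [eq_FF ha hw hc hZ hs _ (mem_Om_of_im (by simpa using ht.1))]
    refine (h1.trans_isBigO hO).trans (IsBigO.of_bound 1 ?_)
    filter_upwards [eventually_ge_atTop (1 : ℝ)] with T hT
    have hT0 : 0 ≤ T := by linarith
    rw [one_mul, Real.norm_eq_abs, Real.norm_eq_abs, abs_of_nonneg (Real.rpow_nonneg hT0 _),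
      abs_of_nonneg (Real.rpow_nonneg hT0 _)]
    apply Real.rpow_le_rpow_of_exponent_le hT
    have := le_max_left η 0
    linarith
  obtain ⟨E, hE, hup⟩ := upper_of_moment ha hw hc hσ (by linarith) hn (le_max_right η 0) hO'
  refine contra ha hw hL hE ?_ ?_ hup
  · have : 0 ≤ max η 0 / n := div_nonneg (le_max_right _ _) hn0.le
    linarith
  · have : max η 0 / n < (r : ℝ) - 1 / 2 - σ := by
      rw [div_lt_iff₀ hn0]; linarith
    linarith

/-- the values are large -/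
theorem not_pointwise (ha : 0 < a) (hw : ∀ j, 0 < w j) (hL : SimL w) {Z : ℂ → ℂ}
    (hZ : ∀ s ∈ Om r, DifferentiableAt ℂ Z s)
    (hs : ∀ s : ℂ, (r : ℝ) < s.re → Z s = ∑' m : Fin r → ℕ, ((lam a w m : ℝ) : ℂ) ^ (-s))
    {σ η : ℝ} (hσ : 1 / 2 < σ) (hσr : σ < (r : ℝ) - 1 / 2) (hη : η < (r : ℝ) - 1 / 2 - σ) :
    ¬ (fun t : ℝ => Z ((σ : ℂ) + (t : ℂ) * I)) =O[atTop] fun t : ℝ => t ^ η := by
  intro hO
  set η1 : ℝ := max η 0 with hη1
  have hη10 : 0 ≤ η1 := le_max_right _ _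
  have hη1r : η1 < (r : ℝ) - 1 / 2 - σ := max_lt hη (by linarith)
  refine not_moment ha hw hL hZ hs (n := 1) le_rfl hσ hσr (η := η1) (by simpa using hη1r) ?_
  obtain ⟨C, hC⟩ := hO.bound
  obtain ⟨T0, hT0⟩ := eventually_atTop.1 hC
  set T1 := max T0 1 with hT1
  have hZc : ContinuousOn (fun t : ℝ => ‖Z ((σ : ℂ) + (t : ℂ) * I)‖ ^ 1) (Ici 1) := by
    intro t ht
    have h1 : DifferentiableAt ℂ Z ((σ : ℂ) + (t : ℂ) * I) :=
      hZ _ (mem_Om_of_im (by simpa using ht))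
    have h2 : ContinuousAt (fun t : ℝ => Z ((σ : ℂ) + (t : ℂ) * I)) t :=
      ContinuousAt.comp (g := Z) (f := fun t : ℝ => (σ : ℂ) + (t : ℂ) * I) h1.continuousAt
        (by fun_prop)
    exact (h2.norm.pow 1).continuousWithinAt
  have hint : ∀ x y : ℝ, 1 ≤ x → x ≤ y →
      IntervalIntegrable (fun t : ℝ => ‖Z ((σ : ℂ) + (t : ℂ) * I)‖ ^ 1) volume x y := by
    intro x y hx hxy
    apply ContinuousOn.intervalIntegrable
    rw [Set.uIcc_of_le hxy]
    exact hZc.mono (fun t ht => hx.trans ht.1)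
  set J : ℝ := ∫ t in (1 : ℝ)..T1, ‖Z ((σ : ℂ) + (t : ℂ) * I)‖ ^ 1 with hJ
  have hT11 : (1 : ℝ) ≤ T1 := le_max_right _ _
  have hJ0 : 0 ≤ J := intervalIntegral.integral_nonneg hT11 (fun t _ => by positivity)
  refine IsBigO.of_bound (J + |C|) ?_
  filter_upwards [eventually_ge_atTop T1] with T hT
  have hTT : (1 : ℝ) ≤ T := hT11.trans hT
  have hT00 : 0 < T := by linarith
  rw [← intervalIntegral.integral_add_adjacent_intervals (hint 1 T1 le_rfl hT11) (hint T1 T hT11 hT)]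
  have h1 : ∫ t in T1..T, ‖Z ((σ : ℂ) + (t : ℂ) * I)‖ ^ 1 ≤ |C| * T ^ (1 + η1) := by
    have h2 : ∫ t in T1..T, ‖Z ((σ : ℂ) + (t : ℂ) * I)‖ ^ 1 ≤ ∫ _t in T1..T, |C| * T ^ η1 := by
      apply intervalIntegral.integral_mono_on hT (hint T1 T hT11 hT) (by simp)
      intro t ht
      have ht1 : 1 ≤ t := hT11.trans ht.1
      have ht0 : 0 < t := by linarith
      have h3 := hT0 t ((le_max_left _ _).trans ht.1)
      rw [Real.norm_eq_abs, abs_of_nonneg (Real.rpow_nonneg ht0.le _)] at h3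
      rw [pow_one]
      calc ‖Z ((σ : ℂ) + (t : ℂ) * I)‖ ≤ C * t ^ η := h3
        _ ≤ |C| * t ^ η1 := by
            gcongr
            · exact le_abs_self C
            · exact le_max_left _ _
        _ ≤ |C| * T ^ η1 := by
            gcongr
            exact ht.2
    refine h2.trans ?_
    rw [intervalIntegral.integral_const, smul_eq_mul, Real.rpow_add hT00, Real.rpow_one]
    have h4 : T - T1 ≤ T := by linarith
    have h5 : 0 ≤ |C| * T ^ η1 := by positivity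
    calc (T - T1) * (|C| * T ^ η1) ≤ T * (|C| * T ^ η1) := by gcongr
      _ = _ := by ring
  have h6 : 0 ≤ ∫ t in T1..T, ‖Z ((σ : ℂ) + (t : ℂ) * I)‖ ^ 1 :=
    intervalIntegral.integral_nonneg hT (fun t _ => by positivity)
  rw [Real.norm_eq_abs, Real.norm_eq_abs, abs_of_nonneg (by linarith),
    abs_of_nonneg (Real.rpow_nonneg hT00.le _)]
  have h7 : 1 ≤ T ^ (1 + η1) := Real.one_le_rpow hTT (by linarith)
  calc _ ≤ J * T ^ (1 + η1) + |C| * T ^ (1 + η1) := by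
        refine add_le_add ?_ h1
        exact le_mul_of_one_le_right hJ0 h7
    _ = _ := by ring

end Pool.Agent.Y930.Bz
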