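import Pool.Agent.Y930.Bz.F

set_option autoImplicit false

/-!
# Simultaneously very well approximable weights: every dimension, and generic weights
-/

namespace Pool.Agent.Y930.Bz

open Finset Filter Topology Set

/-- the weights `1, ξ, …, ξ ^ (d - 1), ξ ^ (d - 1), …` -/
noncomputable def wp (r d : ℕ) (ξ : ℝ) : Fin r → ℝ := fun j => ξ ^ (min (j : ℕ) (d - 1))

lemma simL_powers {ξ : ℝ} (hξ : 0 < ξ) (hL : Liouville ξ) (r d : ℕ) : SimL (wp r d ξ) := by
  intro n
  set e : ℕ := d - 1 with he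
  set K : ℕ := e + n with hK
  set c : ℕ := ⌈(e : ℝ) * (ξ + 1) ^ e⌉₊ with hc
  set m : ℕ := K + K * n + c with hm
  obtain ⟨p, b, hb1, -, hpb⟩ := hL m
  obtain ⟨b', hb'⟩ : ∃ b' : ℕ, (b' : ℤ) = b := ⟨b.toNat, Int.toNat_of_nonneg (by omega)⟩
  have hb2 : 2 ≤ b' := by omega
  have hbr : (b : ℝ) = (b' : ℝ) := by rw [← hb']; push_cast; rfl
  rw [hbr] at hpb
  have hbR : (2 : ℝ) ≤ b' := by exact_mod_cast hb2
  have hb0 : (0 : ℝ) < b' := by linarith
  refine ⟨b' ^ K, ?_, fun j => ?_⟩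
  · calc n ≤ K := by omega
      _ ≤ 2 ^ K := Nat.lt_two_pow_self.le
      _ ≤ b' ^ K := Nat.pow_le_pow_left hb2 K
  · set i : ℕ := min (j : ℕ) e with hi
    have hie : i ≤ e := min_le_right _ _
    refine ⟨p ^ i * (b' : ℤ) ^ (K - i), ?_⟩
    have hwi : wp r d ξ j = ξ ^ i := rfl
    rw [hwi]
    push_cast
    have h1 : (b' : ℝ) ^ K * ξ ^ i - (p : ℝ) ^ i * (b' : ℝ) ^ (K - i) =
        (b' : ℝ) ^ K * (ξ ^ i - ((p : ℝ) / b') ^ i) := by
      have : (b' : ℝ) ^ K = (b' : ℝ) ^ (K - i) * (b' : ℝ) ^ i := by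
        rw [← pow_add]; congr 1; omega
      rw [mul_sub, div_pow, this]
      field_simp
    rw [h1, abs_mul, abs_of_pos (by positivity)]
    have h2 := abs_pow_sub_pow_le ξ ((p : ℝ) / b') i
    have h3 : |ξ - (p : ℝ) / b'| ≤ 1 / (b' : ℝ) ^ m := hpb.le
    have h4 : 1 / (b' : ℝ) ^ m ≤ 1 := by
      rw [div_le_one (by positivity)]
      exact one_le_pow₀ (by linarith)
    have h5 : max |ξ| |(p : ℝ) / b'| ≤ ξ + 1 := by
      apply max_le
      · rw [abs_of_pos hξ]; linarith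
      · have h6 : |(p : ℝ) / b'| ≤ |ξ| + |(p : ℝ) / b' - ξ| := by
          have := abs_add_le ξ ((p : ℝ) / b' - ξ)
          rwa [add_sub_cancel] at this
        rw [abs_sub_comm ((p : ℝ) / b') ξ, abs_of_pos hξ] at h6
        linarith
    have h7 : (i : ℝ) * max |ξ| |(p : ℝ) / b'| ^ (i - 1) ≤ e * (ξ + 1) ^ e := by
      have h8 : (i : ℝ) ≤ e := by exact_mod_cast hie
      have h9 : max |ξ| |(p : ℝ) / b'| ^ (i - 1) ≤ (ξ + 1) ^ e := by
        calc max |ξ| |(p : ℝ) / b'| ^ (i - 1) ≤ (ξ + 1) ^ (i - 1) :=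
              pow_le_pow_left₀ ((abs_nonneg _).trans (le_max_left _ _)) h5 _
          _ ≤ (ξ + 1) ^ e := pow_le_pow_right₀ (by linarith) (by omega)
      have h10 : 0 ≤ max |ξ| |(p : ℝ) / b'| ^ (i - 1) := by
        have : 0 ≤ max |ξ| |(p : ℝ) / b'| := (abs_nonneg _).trans (le_max_left _ _)
        positivity
      exact mul_le_mul h8 h9 h10 (Nat.cast_nonneg _)
    have h11 : (e : ℝ) * (ξ + 1) ^ e ≤ (b' : ℝ) ^ c := by
      calc (e : ℝ) * (ξ + 1) ^ e ≤ c := Nat.le_ceil _
        _ ≤ (2 : ℝ) ^ c := by exact_mod_cast Nat.lt_two_pow_self.le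
        _ ≤ (b' : ℝ) ^ c := by gcongr
    calc (b' : ℝ) ^ K * |ξ ^ i - ((p : ℝ) / b') ^ i|
        ≤ (b' : ℝ) ^ K * (|ξ - (p : ℝ) / b'| * i * max |ξ| |(p : ℝ) / b'| ^ (i - 1)) := by gcongr
      _ = (b' : ℝ) ^ K * |ξ - (p : ℝ) / b'| * (i * max |ξ| |(p : ℝ) / b'| ^ (i - 1)) := by ring
      _ ≤ (b' : ℝ) ^ K * (1 / (b' : ℝ) ^ m) * (b' : ℝ) ^ c := by
          have := h7.trans h11
          gcongr
      _ = 1 / ((b' : ℝ) ^ K) ^ n := by
          rw [hm, pow_add (b' : ℝ) (K + K * n) c, pow_add (b' : ℝ) K (K * n),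
            pow_mul (b' : ℝ) K n]
          field_simp

lemma wp_pos {ξ : ℝ} (hξ : 0 < ξ) (r d : ℕ) (j : Fin r) : 0 < wp r d ξ j := by
  unfold wp; positivity

lemma finrank_wp {ξ : ℝ} (hξ : Transcendental ℤ ξ) {r d : ℕ} (hd : 1 ≤ d) (hdr : d ≤ r) :
    Module.finrank ℚ (Submodule.span ℚ (Set.range (wp r d ξ))) = d := by
  have hT : Transcendental ℚ ξ := by
    intro hA
    exact hξ ((IsFractionRing.isAlgebraic_iff ℤ ℚ ℝ).mpr hA)
  have hli : LinearIndependent ℚ (fun j : Fin d => ξ ^ (j : ℕ)) := by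
    rw [transcendental_iff_injective] at hT
    have h1 : LinearIndependent ℚ (fun j : Fin d => (Polynomial.X : Polynomial ℚ) ^ (j : ℕ)) := by
      have := (Polynomial.basisMonomials ℚ).linearIndependent
      have h2 := this.comp (fun j : Fin d => (j : ℕ)) Fin.val_injective
      convert h2 using 1
      funext j
      simp [Polynomial.coe_basisMonomials, Polynomial.X_pow_eq_monomial]
    have h3 := h1.map' (Polynomial.aeval ξ : Polynomial ℚ →ₐ[ℚ] ℝ).toLinearMap
      (LinearMap.ker_eq_bot.mpr hT)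
    have h4 : (⇑(Polynomial.aeval ξ : Polynomial ℚ →ₐ[ℚ] ℝ).toLinearMap ∘
        fun j : Fin d => (Polynomial.X : Polynomial ℚ) ^ (j : ℕ)) = fun j : Fin d => ξ ^ (j : ℕ) := by
      funext j
      simp
    rw [h4] at h3
    exact h3
  have hr : Set.range (wp r d ξ) = Set.range (fun j : Fin d => ξ ^ (j : ℕ)) := by
    ext x
    constructor
    · rintro ⟨j, rfl⟩
      exact ⟨⟨min (j : ℕ) (d - 1), by omega⟩, rfl⟩
    · rintro ⟨j, rfl⟩
      refine ⟨⟨j, by omega⟩, ?_⟩
      show ξ ^ (min (j : ℕ) (d - 1)) = ξ ^ (j : ℕ)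
      congr 1
      have := j.2
      omega
  rw [hr, finrank_span_eq_card hli]
  simp

/-- Weights of every dimension. -/
theorem exists_weights {r d : ℕ} (hd : 1 ≤ d) (hdr : d ≤ r) :
    ∃ w : Fin r → ℝ, (∀ j, 0 < w j) ∧ Module.finrank ℚ (Submodule.span ℚ (Set.range w)) = d ∧
      SimL w := by
  have hξL : Liouville (liouvilleNumber ((2 : ℕ) : ℝ)) := liouville_liouvilleNumber (le_refl 2)
  have hξT : Transcendental ℤ (liouvilleNumber ((2 : ℕ) : ℝ)) :=
    transcendental_liouvilleNumber (le_refl 2)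
  have hξ : 0 < liouvilleNumber ((2 : ℕ) : ℝ) := by
    unfold liouvilleNumber
    refine Summable.tsum_pos (LiouvilleNumber.summable (by norm_num)) ?_ 0 ?_
    · intro i; positivity
    · positivity
  exact ⟨wp r d _, wp_pos hξ r d, finrank_wp hξT hd hdr, simL_powers hξ hξL r d⟩

/-- Generic weights are simultaneously very well approximable. -/
theorem simL_residual (r : ℕ) : ∀ᶠ w in residual (Fin r → ℝ), SimL w := by
  have key : ∀ n : ℕ, ∀ᶠ w in residual (Fin r → ℝ), ∃ D : ℕ, (n ≤ D ∧ 1 ≤ D) ∧ ∀ j, ∃ N : ℤ,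
      |(D : ℝ) * w j - N| < 1 / (D : ℝ) ^ n := by
    intro n
    refine residual_of_dense_open ?_ ?_
    · have e : {w : Fin r → ℝ | ∃ D : ℕ, (n ≤ D ∧ 1 ≤ D) ∧ ∀ j, ∃ N : ℤ,
          |(D : ℝ) * w j - N| < 1 / (D : ℝ) ^ n} = ⋃ D : ℕ, ⋃ (_ : n ≤ D ∧ 1 ≤ D), ⋂ j : Fin r,
          ⋃ N : ℤ, {w : Fin r → ℝ | |(D : ℝ) * w j - N| < 1 / (D : ℝ) ^ n} := by
        ext w
        simp
      rw [e]
      refine isOpen_iUnion fun D => isOpen_iUnion fun _ => isOpen_iInter_of_finite fun j =>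
        isOpen_iUnion fun N => isOpen_lt ?_ continuous_const
      fun_prop
    · rw [Metric.dense_iff]
      intro w ε hε
      obtain ⟨m, hm⟩ := exists_nat_gt (1 / ε)
      set D : ℕ := max (max n 1) m with hD
      have hD1 : 1 ≤ D := (le_max_right n 1).trans (le_max_left _ _)
      have hD0 : (0 : ℝ) < D := by exact_mod_cast hD1
      have hDm : 1 / ε < D := hm.trans_le (by exact_mod_cast le_max_right (max n 1) m)
      refine ⟨fun j => (round ((D : ℝ) * w j) : ℝ) / D, ?_, D,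
        ⟨(le_max_left n 1).trans (le_max_left _ _), hD1⟩, fun j => ⟨round ((D : ℝ) * w j), ?_⟩⟩
      · rw [Metric.mem_ball, dist_pi_lt_iff hε]
        intro j
        rw [Real.dist_eq]
        have h1 := abs_sub_round ((D : ℝ) * w j)
        have h2 : (round ((D : ℝ) * w j) : ℝ) / D - w j =
            -(((D : ℝ) * w j - round ((D : ℝ) * w j)) / D) := by
          field_simp; ring
        rw [h2, abs_neg, abs_div, abs_of_pos hD0, div_lt_iff₀ hD0]
        rw [div_lt_iff₀ hε] at hDm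
        linarith
      · have h3 : (D : ℝ) * ((round ((D : ℝ) * w j) : ℝ) / D) - round ((D : ℝ) * w j) = 0 := by
          field_simp; ring
        rw [h3, abs_zero]
        positivity
  have h1 := eventually_countable_forall.2 key
  filter_upwards [h1] with w hw n
  obtain ⟨D, ⟨h2, -⟩, h3⟩ := hw n
  refine ⟨D, h2, fun j => ?_⟩
  obtain ⟨N, hN⟩ := h3 j
  exact ⟨N, hN.le⟩

/-- Generic weights are linearly independent over `ℚ`. -/
theorem indep_residual (r : ℕ) : ∀ᶠ w in residual (Fin r → ℝ), LinearIndependent ℚ w := by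
  have key : ∀ g : Fin r → ℚ, ∀ᶠ w in residual (Fin r → ℝ), g ≠ 0 → ∑ i, (g i : ℝ) * w i ≠ 0 := by
    intro g
    by_cases hg : g = 0
    · exact Eventually.of_forall fun w h => absurd hg h
    obtain ⟨i, hi⟩ := Function.ne_iff.1 hg
    have hi' : (g i : ℝ) ≠ 0 := by exact_mod_cast hi
    have h1 : {w : Fin r → ℝ | ∑ i, (g i : ℝ) * w i ≠ 0} ∈ residual (Fin r → ℝ) := by
      refine residual_of_dense_open (isOpen_ne_fun (by fun_prop) continuous_const) ?_
      rw [Metric.dense_iff]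
      intro w ε hε
      by_cases h0 : ∑ i, (g i : ℝ) * w i = 0
      · refine ⟨w + Pi.single i (ε / 2), ?_, ?_⟩
        · rw [Metric.mem_ball, dist_pi_lt_iff hε]
          intro j
          rw [Real.dist_eq, Pi.add_apply, add_sub_cancel_left]
          by_cases hj : j = i
          · subst hj
            rw [Pi.single_eq_same, abs_of_pos (by positivity)]
            linarith
          · rw [Pi.single_eq_of_ne hj, abs_zero]
            exact hε
        · show ∑ k, (g k : ℝ) * (w + Pi.single i (ε / 2) : Fin r → ℝ) k ≠ 0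
          have h2 : ∑ k, (g k : ℝ) * (w + Pi.single i (ε / 2) : Fin r → ℝ) k =
              (g i : ℝ) * (ε / 2) := by
            simp only [Pi.add_apply, mul_add, Finset.sum_add_distrib, h0, zero_add]
            rw [Finset.sum_eq_single i]
            · rw [Pi.single_eq_same]
            · intro k _ hk
              rw [Pi.single_eq_of_ne hk, mul_zero]
            · intro h; exact absurd (Finset.mem_univ i) h
          rw [h2]
          positivity
      · exact ⟨w, Metric.mem_ball_self hε, h0⟩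
    filter_upwards [h1] with w hw _ using hw
  have h1 := eventually_countable_forall.2 key
  filter_upwards [h1] with w hw
  rw [Fintype.linearIndependent_iff]
  intro g hg i
  by_contra hne
  refine hw g (fun h => hne (by rw [h]; rfl)) ?_
  rw [← hg]
  exact Finset.sum_congr rfl (fun k _ => (Rat.smul_def _ _).symm)

end Pool.Agent.Y930.Bz
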